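import Pool.Agent.W2helper44.MW.Indep

/-!
# MP_855f4c_ag: the weight-monodromy conjecture for threefolds: independence of the cohomology theory
-/

set_option autoImplicit false

open Module

universe u v u' v'

namespace Pool.Agent.Results.MP_855f4c_ag.IndependenceForThreefolds

open Pool.Agent.Y143 Pool.Agent.W2helper44.MW

/-- **Independence of `ℓ` of the weight-monodromy conjecture for threefolds.** Let `X_K` be a smooth
projective threefold over a local field `K` with residue field with `q` elements, with a projective
strictly semistable model. `X` is one cohomology theory (cohomology of the strata `Y^(a+1)` of the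
special fibre and of the geometric generic fibre, weight spectral sequence of Rapoport and Zink or
of Mokrane) and `X'` is a second one, with coefficients in algebraically closed fields `Ω` and `Ω'`
of characteristic zero. Let
`T = L⁻¹ ∘ τ ∘ ρ : H^2(Y^(1)) → H^2(Y^(2)) → H^4(Y^(1)) ≅ H^2(Y^(1))`
be the transform (`ρ` the restriction, `τ` the Gysin map, `L` the Lefschetz operator), and `T'` the
same operator in the second theory.

Suppose that the two theories have the same dimensions (`hD`; this is known for two Weil cohomology
theories) and that `T` and `T'` have the same characteristic polynomial, with rational coefficients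
(`hC`; this is the case if `L⁻¹` on `H^4(Y^(1))` is induced by an algebraic cycle, i.e. if the
components of the special fibre satisfy the Lefschetz standard conjecture in degree two). Then the
weight-monodromy conjecture for `X` (in all degrees) is equivalent to the weight-monodromy
conjecture for `X'` (in all degrees). -/
theorem result {Ω : Type u} [Field Ω] [CharZero Ω] [IsAlgClosed Ω] {Γ : Type}
    {Ω' : Type u'} [Field Ω'] [CharZero Ω'] [IsAlgClosed Ω'] {Γ' : Type} {q : ℕ} (hq : 1 < q)
    (X : Degeneration.{u, v} Ω Γ 3 q) (A : DivisorClasses X.toSpecialFibre)
    (X' : Degeneration.{u', v'} Ω' Γ' 3 q) (A' : DivisorClasses X'.toSpecialFibre)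
    (T : EndH2 X.toSpecialFibre) (hT : IsTransform X.toSpecialFibre T)
    (T' : EndH2 X'.toSpecialFibre) (hT' : IsTransform X'.toSpecialFibre T')
    (hD : SameDimensions X.toSemistableModel X'.toSemistableModel)
    (hC : SameRational (charpolyH2 X.toSpecialFibre T) (charpolyH2 X'.toSpecialFibre T')) :
    WeightMonodromy X.toSemistableModel ↔ WeightMonodromy X'.toSemistableModel :=
  mw_indep hq X A hT X' A' hT' hD hC

end Pool.Agent.Results.MP_855f4c_ag.IndependenceForThreefolds
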