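import Pool.Agent.W2helper36.WM.Fam

/-!
# The weight-monodromy conjecture for the fibres near a semistable fibre

`K` is a finite extension of `ℚ_p` with residue field of `q` elements.

(1) Let `X → C` be a projective family over a curve `C` over `K`, smooth outside `0 ∈ C(K)`, whose
fibre `Y = X_0` is a reduced divisor with strict normal crossings on the regular scheme `X`. If the
strata of `Y` satisfy the weight-monodromy conjecture over `K`, then `H^i(X_s)` is mw pure of weight
`i` for all the points `s ≠ 0` of `C` over finite extensions `K'` of `K` in a small disc around `0`,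
except for at most `(dim H^i) ^ 2` values of the valuation of `t(s)` (the geometric description of
the cohomology of `X_s` is given in `BoundaryFamily.near`, `Annulus.monAt` and `Annulus.frobAt`). In particular
`H^i(X_s)` is mw pure of weight `i` for all `s ≠ 0` in a smaller disc around `0`.

The hypothesis holds if the cohomology of the strata is unramified and pure, for instance if the
strata have good reduction over `K` or if their cohomology is generated by algebraic cycles
(rational surfaces, toric varieties, ...).

(2) (Zero-one law.) Let `X → A` be a smooth projective family over an annulus or a punctured disc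
over `K` for which the fundamental group of `A` acts on the cohomology `V` of degree `i` of the
fibres through the Kummer coverings with unipotent geometric monodromy. If `V = H^i(X_s)` is mw pure
of weight `i` for one point `s` over a finite extension of `K`, then it is so for all the points
`s`, except for at most `(dim V) ^ 2` values of the valuation of `t(s)`.
-/

set_option autoImplicit false

open Module

namespace Pool.Agent.Results.MP_855f4c_ag.NearTheBoundary

open Pool.Agent.Y143 Pool.Agent.W2helper36.WM

theorem result :
    (∀ (Ω : Type) [Field Ω] [CharZero Ω] [IsAlgClosed Ω] (Γ : Type) (n q : ℕ), 1 < q →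
      ∀ X : BoundaryFamily Ω Γ n q, X.toStrata.IsUnramified ∨ X.toStrata.WeightMonodromy →
      ∀ i : ℕ, ∃ T : Finset ℚ, T.card ≤ finrank Ω (X.near i).V ^ 2 ∧
        ∀ v ∉ T, (X.near i).PureAt i v) ∧
    (∀ (Ω : Type) [Field Ω] [CharZero Ω] [IsAlgClosed Ω] (q : ℕ), 1 < q →
      ∀ (A : Annulus Ω q) (i : ℤ) (e₀ f₀ : ℕ) (v₀ : ℚ) (l₀ m₀ : Ω), 0 < e₀ → 0 < f₀ →
        IsMWPure (q ^ f₀) i (A.frobAt f₀ l₀ m₀) (A.monAt e₀ v₀) →
        ∃ T : Finset ℚ, T.card ≤ finrank Ω A.V ^ 2 ∧ ∀ v ∉ T, A.PureAt i v) :=
  ⟨fun _ _ _ _ _ _ _ hq X hW i => X.pure_near hq
      (hW.elim (fun h => X.toStrata.weightMonodromy_of_unramified h) id) i,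
    fun _ _ _ _ _ hq A _ _ _ _ _ _ he hf hp => A.pure_all hq he hf hp⟩

end Pool.Agent.Results.MP_855f4c_ag.NearTheBoundary
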