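import Pool.Agent.W2helper36.WN.Main

/-!
# The weight-monodromy conjecture in families over `p`-adic curves: propagation from one fibre

Let `K` be a finite extension of `ℚ_p` with residue field of `q` elements, and `X → C` a smooth
projective family over a smooth connected curve `C` over `K` with pro-`ℓ` geometric monodromy on the
cohomology of degree `i` of the fibres (this holds after the family is pulled back to a finite
covering of `C`). Let `𝒞` be a semistable model over `O_K` of the compactification of `C`, with the
cusps reducing to different smooth points of the special fibre; `K` is supposed to be large enough.
All the points `s` of `C` over finite extensions of `K` reduce to closed points of the open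
components `E°` of the special fibre, to nodes or to cusps.

Suppose that `H^i(X_s)` is mw pure of weight `i` for ONE point `s` which reduces to a closed point
of `E°`. Then

* `H^i(X_s)` is mw pure of weight `i` for ALL the points `s` which reduce to closed points of `E°`;
* for all the nodes and cusps `y` of `E` there is a set `T` of at most `(dim H^i) ^ 2` rational
  numbers such that `H^i(X_s)` is mw pure of weight `i` for all the points `s` reducing to `y` for
  which `v(t(s))` is not in `T`; here `t` is the coordinate of the annulus or punctured disc of these
  points, which is a local parameter of `E` at `y`;
* if `y` is a node, `E'` is the component at the other end of the annulus, and the length `w` of the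
  annulus (the points with `0 < v(t(s)) < w`) is not in `T`, then `H^i(X_s)` is mw pure of weight `i`
  for all the points `s` which reduce to closed points of `E'°`.

So the conjecture for the fibres over all of `C`, outside of finitely many circles, follows from the
conjecture for one fibre over each component, or even for one fibre if the lengths of enough annuli
are not exceptional.

The proof uses the theorems of Deligne and Lafforgue on the weights of lisse sheaves on `E°` for the
graded pieces of the monodromy filtration of `K`, and the following theorem of linear algebra: if
the operator `Z` is pure on the graded pieces of the monodromy filtration of `N`, then the general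
linear combination of `N` and `Z` is pure.
-/

set_option autoImplicit false

open Module

namespace Pool.Agent.Results.MP_855f4c_ag.PropagationOverCurves

open Pool.Agent.Y143 Pool.Agent.W2helper36.WM Pool.Agent.W2helper36.WN

theorem result (Ω : Type) [Field Ω] [CharZero Ω] [IsAlgClosed Ω] (V : Type) [AddCommGroup V]
    [Module Ω V] (P Y : Type) (q : ℕ) (hq : 1 < q) (S : Component Ω V P Y q) (i : ℤ) (x₀ : P)
    (h : SomePure (S.disc x₀) i) :
    (∀ x v, (S.disc x).PureAt i v) ∧
    ∀ y, ∃ T : Finset ℚ, T.card ≤ finrank Ω V ^ 2 ∧ (∀ v ∉ T, (S.annulus y).PureAt i v) ∧
      ∀ (P' Y' : Type) (S' : Component Ω V P' Y' q) (y' : Y') (w : ℚ), w ∉ T →
        S.Adjacent y S' y' w → ∀ x v, (S'.disc x).PureAt i v :=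
  S.propagation hq h

end Pool.Agent.Results.MP_855f4c_ag.PropagationOverCurves
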