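import Pool.Agent.W2helper44.MW.NoForms

/-!
# MP_855f4c_ag: the weight-monodromy conjecture for threefolds without differential forms of degree
three
-/

set_option autoImplicit false

open Module

universe u v u' v'

namespace Pool.Agent.Results.MP_855f4c_ag.ThreefoldsWithoutThreeForms

open Pool.Agent.Y143 Pool.Agent.X302.MW Pool.Agent.W2helper44.MW

/-- **The monodromy-weight conjecture for threefolds without differential forms of degree three.**
Let `X_K` be a smooth projective threefold over a finite extension `K` of `ℚ_p`, with
`H^3(X_K, O) = 0`, which has a projective strictly semistable model over the ring of integers, with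
residue field with `q` elements. There is no condition on `H^2(X_K, O)`. Suppose that the
irreducible components of the special fibre satisfy the Tate conjecture for divisors, and that
(`hV`) the multiplicity of a non-Tate number as a Frobenius eigenvalue on the `ℓ`-adic cohomology
`H^2` of the generic fibre is at most the multiplicity of its conjugates on the `p`-adic cohomology
`H^2` (this follows from the independence of `ℓ`, including `ℓ = p`, of the Frobenius eigenvalues on
`H^2`, and it is trivial if `H^2(X_K, O) = 0`). Then `H^k` of the geometric generic fibre is mw pure
of weight `k`, for all `k`.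

Here `X` is the `ℓ`-adic theory (cohomology of the strata of the special fibre and of the geometric
generic fibre, and weight spectral sequence of Rapoport and Zink) and `X'` is the `p`-adic theory
(crystalline cohomology of the strata, Hyodo-Kato cohomology, weight spectral sequence of Mokrane),
with coefficients in algebraically closed fields `Ω` and `Ω'`, and `R` is the valuation ring of
`Ω'`. The other hypotheses are the following.

* `hI`, `hI'`, `hC0`, `hC1` (known, Deligne and Katz-Messing): the Frobenius eigenvalues on the
  strata are algebraic integers, and the Frobenius has the same rational characteristic polynomial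
  on `H^2(Y^(1))`, and on `H^2(Y^(2))`, in the two theories.
* `h3`: the Frobenius eigenvalues on the Hyodo-Kato cohomology `H^3` have slope at least one; this
  is the case if `H^3(X_K, O) = 0`, because the Newton polygon lies above the Hodge polygon.
* `hT`: the Tate conjecture for divisors on the components. -/
theorem result {Ω : Type u} [Field Ω] [CharZero Ω] [IsAlgClosed Ω] {Γ : Type}
    {Ω' : Type u'} [Field Ω'] [CharZero Ω'] [IsAlgClosed Ω'] {Γ' : Type} {q : ℕ}
    (hq : IsPrimePow q)
    (X : Degeneration.{u, v} Ω Γ 3 q) (A : DivisorClasses X.toSpecialFibre)
    (X' : SemistableModel.{u', v'} Ω' Γ' 3 q)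
    (hI : HasIntegralFrobenius X.toSpecialFibre) (hI' : HasIntegralFrobenius X'.toSpecialFibre)
    (hC0 : SameFrobenius X.toSpecialFibre X'.toSpecialFibre 0 2)
    (hC1 : SameFrobenius X.toSpecialFibre X'.toSpecialFibre 1 2)
    (hV : GenericFrobeniusLE X.toSemistableModel X' 2)
    (R : ValuationSubring Ω') (hR : ((q : Ω'))⁻¹ ∉ R)
    (h3 : ∀ α, IsEigenvalueOn X' 3 α → α / q ∈ R)
    (hT : A.TateConj 0) (k : ℕ) :
    IsMWPure q k (X.actV k X.frob) (X.N k) :=
  mw_noforms X A X' hq hI hI' hC0 hC1 hV R hR h3 hT k

end Pool.Agent.Results.MP_855f4c_ag.ThreefoldsWithoutThreeForms
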